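import Pool.Agent.K1H61.RP.TsA

/-! Probabilities of the basic events. -/

set_option autoImplicit false

open MeasureTheory ProbabilityTheory Matrix

namespace Pool.Agent.K1H61.RP

open Pool.Agent.K1H9.RP

/-- listing a finite type so that the elements with a property come first -/
theorem exists_equiv {α : Type} [Fintype α] (P : α → Prop) [DecidablePred P] {n J : ℕ}
    (hn : Fintype.card α = n) (hJ : Fintype.card {x // P x} = J) :
    ∃ e : Fin n ≃ α, ∀ i, P (e i) ↔ (i : ℕ) < J := by
  have hJn : J ≤ n := by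
    rw [← hn, ← hJ]
    exact Fintype.card_subtype_le P
  have c1 : Fintype.card {i : Fin n // (i : ℕ) < J} = J := by
    rw [Fintype.card_subtype]
    have : (Finset.univ.filter fun i : Fin n => (i : ℕ) < J) =
        (Finset.univ : Finset (Fin J)).map (Fin.castLEEmb hJn) := by
      ext i
      simp only [Finset.mem_filter, Finset.mem_univ, true_and, Finset.mem_map]
      constructor
      · intro h
        exact ⟨⟨i, h⟩, Fin.ext rfl⟩
      · rintro ⟨j, rfl⟩
        exact j.2
    rw [this, Finset.card_map, Finset.card_univ, Fintype.card_fin]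
  have c2 : Fintype.card {i : Fin n // ¬ (i : ℕ) < J} = n - J := by
    rw [Fintype.card_subtype_compl, c1, Fintype.card_fin]
  have c3 : Fintype.card {x // ¬ P x} = n - J := by
    rw [Fintype.card_subtype_compl, hJ, hn]
  have e1 : {i : Fin n // (i : ℕ) < J} ≃ {x // P x} := Fintype.equivOfCardEq (c1.trans hJ.symm)
  have e2 : {i : Fin n // ¬ (i : ℕ) < J} ≃ {x // ¬ P x} :=
    Fintype.equivOfCardEq (c2.trans c3.symm)
  refine ⟨(Equiv.sumCompl fun i : Fin n => (i : ℕ) < J).symm.trans
    ((Equiv.sumCongr e1 e2).trans (Equiv.sumCompl P)), ?_⟩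
  intro i
  by_cases hi : (i : ℕ) < J
  · have h1 : (Equiv.sumCompl fun i : Fin n => (i : ℕ) < J).symm i = Sum.inl ⟨i, hi⟩ :=
      Equiv.sumCompl_symm_apply_of_pos (p := fun i : Fin n => (i : ℕ) < J) hi
    simp only [Equiv.trans_apply, h1, Equiv.sumCongr_apply, Sum.map_inl, Equiv.sumCompl_apply_inl]
    exact ⟨fun _ => hi, fun _ => (e1 ⟨i, hi⟩).2⟩
  · have h1 : (Equiv.sumCompl fun i : Fin n => (i : ℕ) < J).symm i = Sum.inr ⟨i, hi⟩ :=
      Equiv.sumCompl_symm_apply_of_neg (p := fun i : Fin n => (i : ℕ) < J) hi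
    simp only [Equiv.trans_apply, h1, Equiv.sumCongr_apply, Sum.map_inr, Equiv.sumCompl_apply_inr]
    exact ⟨fun h => absurd h (e2 ⟨i, hi⟩).2, fun h => absurd h hi⟩

section

variable {d a b : ℕ} {S : Finset (Fin a ⊕ Fin b)} (e : Fin (d + 1) ≃ {i // i ∈ S})

theorem det_ne {x : Fin a ⊕ Fin b → Fin d → ℝ}
    (h : LinearIndependent ℝ (fun i : S => hom (x i))) :
    (BM fun i => x (e i)).det ≠ 0 := by
  have h1 : LinearIndependent ℝ (BM fun i => x (e i)).row := h.comp e e.injective
  rw [Matrix.linearIndependent_rows_iff_isUnit, Matrix.isUnit_iff_isUnit_det] at h1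
  exact h1.ne_zero

theorem sum_S (m : Fin a ⊕ Fin b → ℝ) (hm : ∀ i, i ∉ S → m i = 0)
    (x : Fin a ⊕ Fin b → Fin d → ℝ) :
    ∑ i, m i • hom (x i) = (fun i => m (e i)) ᵥ* (BM fun i => x (e i)) := by
  have h1 : ∑ i, m i • hom (x i) = ∑ i ∈ S, m i • hom (x i) := by
    symm
    apply Finset.sum_subset (Finset.subset_univ _)
    intro i _ hi
    rw [hm i hi, zero_smul]
  rw [h1, ← Finset.sum_coe_sort]
  have h2 : ∑ i : S, m i • hom (x i) = ∑ i, m (e i) • hom (x (e i)) :=
    (Equiv.sum_comp e fun i : {i // i ∈ S} => m i • hom (x i)).symm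
  rw [h2]
  funext j
  rw [Finset.sum_apply]
  simp only [Matrix.vecMul, dotProduct, BM, Matrix.of_apply, Pi.smul_apply, smul_eq_mul]

theorem pos_iff {s : ℝ} {x : Fin a ⊕ Fin b → Fin d → ℝ} (z : Fin d → ℝ)
    (hdet : (BM fun i => x (e i)).det ≠ 0) :
    Pos s S x z ↔ ∀ i : Fin (d + 1),
      0 < s * sg (e i : Fin a ⊕ Fin b) * bary (fun i => x (e i)) z i := by
  have hu : IsUnit (BM fun i => x (e i)).det := isUnit_iff_ne_zero.2 hdet
  constructor
  · rintro ⟨m, h1, h2, h3⟩ i
    rw [sum_S e m h1] at h3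
    have h4 : bary (fun i => x (e i)) z = fun i => m (e i) := by
      unfold bary
      rw [← h3, Matrix.vecMul_vecMul, Matrix.mul_nonsing_inv _ hu, Matrix.vecMul_one]
    rw [h4]
    exact h2 _ (e i).2
  · intro h
    set m : Fin a ⊕ Fin b → ℝ := fun i =>
      if hi : i ∈ S then bary (fun i => x (e i)) z (e.symm ⟨i, hi⟩) else 0 with hm
    have hme : ∀ i, m (e i) = bary (fun i => x (e i)) z i := by
      intro i
      simp only [hm]
      rw [dif_pos (e i).2]
      congr 1
      exact e.symm_apply_apply i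
    have hm0 : ∀ i, i ∉ S → m i = 0 := fun i hi => dif_neg hi
    refine ⟨m, hm0, ?_, ?_⟩
    · intro i hi
      have h1 := h (e.symm ⟨i, hi⟩)
      rw [Equiv.apply_symm_apply] at h1
      simp only [hm]
      rw [dif_pos hi]
      exact h1
    · rw [sum_S e m hm0]
      have h4 : (fun i => m (e i)) = bary (fun i => x (e i)) z := funext hme
      rw [h4]
      unfold bary
      rw [Matrix.vecMul_vecMul, Matrix.nonsing_inv_mul _ hu, Matrix.vecMul_one]

theorem dual_iff {x : Fin a ⊕ Fin b → Fin d → ℝ} (h : Fin a ⊕ Fin b → ℝ)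
    (hdet : (BM fun i => x (e i)).det ≠ 0) :
    Dual S x h ↔ ∀ i : {i // i ∉ S}, 0 < sg (i : Fin a ⊕ Fin b) *
      (gco (fun i => x (e i)) (fun i => h (e i)) ⬝ᵥ hom (x i) - h i) := by
  have hu : IsUnit (BM fun i => x (e i)).det := isUnit_iff_ne_zero.2 hdet
  constructor
  · rintro ⟨p, h1, h2⟩ i
    have h3 : (BM fun i => x (e i)) *ᵥ p = fun i => h (e i) := by
      funext j
      rw [← h1 _ (e j).2, dotProduct_comm]
      rfl
    have h4 : gco (fun i => x (e i)) (fun i => h (e i)) = p := by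
      unfold gco
      rw [← h3, Matrix.mulVec_mulVec, Matrix.nonsing_inv_mul _ hu, Matrix.one_mulVec]
    rw [h4]
    exact h2 i i.2
  · intro h1
    refine ⟨gco (fun i => x (e i)) (fun i => h (e i)), ?_, fun i hi => h1 ⟨i, hi⟩⟩
    intro i hi
    have h3 : (BM fun i => x (e i)) *ᵥ gco (fun i => x (e i)) (fun i => h (e i)) =
        fun i => h (e i) := by
      unfold gco
      rw [Matrix.mulVec_mulVec, Matrix.mul_nonsing_inv _ hu, Matrix.one_mulVec]
    have h4 := congrFun h3 (e.symm ⟨i, hi⟩)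
    simp only [Equiv.apply_symm_apply] at h4
    rw [← h4, dotProduct_comm]
    simp only [Matrix.mulVec, BM, Matrix.of_apply, Equiv.apply_symm_apply]

/-- the event in the new coordinates -/
def Ev (d : ℕ) (S : Finset (Fin a ⊕ Fin b)) (J : ℕ) :
    Set (((Fin (d + 1) → Fin d → ℝ) × (Fin (d + 1) → ℝ)) ×
      ((Fin d → ℝ) × (({i // i ∉ S} → Fin d → ℝ) × ({i // i ∉ S} → ℝ)))) :=
  {q | pat J (bary q.1.1 q.2.1) ∧ ∀ i : {i // i ∉ S},
    0 < sg (i : Fin a ⊕ Fin b) * (gco q.1.1 q.1.2 ⬝ᵥ hom (q.2.2.1 i) - q.2.2.2 i)}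

theorem meas_Ev (J : ℕ) : MeasurableSet (Ev d S J) := by
  have h1 : MeasurableSet {q : ((Fin (d + 1) → Fin d → ℝ) × (Fin (d + 1) → ℝ)) ×
      ((Fin d → ℝ) × (({i // i ∉ S} → Fin d → ℝ) × ({i // i ∉ S} → ℝ))) |
      pat J (bary q.1.1 q.2.1)} := by
    have hm : Measurable fun q : ((Fin (d + 1) → Fin d → ℝ) × (Fin (d + 1) → ℝ)) ×
      ((Fin d → ℝ) × (({i // i ∉ S} → Fin d → ℝ) × ({i // i ∉ S} → ℝ))) =>
        bary q.1.1 q.2.1 := by
      rw [measurable_pi_iff]
      intro i
      exact (meas_bary i).comp ((measurable_fst.comp measurable_fst).prodMk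
        (measurable_fst.comp measurable_snd))
    exact hm (meas_pat J)
  have h2 : ∀ i : {i // i ∉ S}, MeasurableSet {q : ((Fin (d + 1) → Fin d → ℝ) ×
      (Fin (d + 1) → ℝ)) × ((Fin d → ℝ) × (({i // i ∉ S} → Fin d → ℝ) ×
      ({i // i ∉ S} → ℝ))) | 0 < sg (i : Fin a ⊕ Fin b) *
        (gco q.1.1 q.1.2 ⬝ᵥ hom (q.2.2.1 i) - q.2.2.2 i)} := by
    intro i
    apply measurableSet_lt measurable_const
    apply Measurable.const_mul
    apply Measurable.sub
    · unfold dotProduct
      apply Finset.measurable_sum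
      intro j _
      apply Measurable.mul
      · exact (meas_gco j).comp ((measurable_fst.comp measurable_fst).prodMk
          (measurable_snd.comp measurable_fst))
      · exact (measurable_pi_apply j).comp (cont_hom.measurable.comp
          ((measurable_pi_apply i).comp
            (measurable_fst.comp (measurable_snd.comp measurable_snd))))
    · exact (measurable_pi_apply i).comp (measurable_snd.comp (measurable_snd.comp measurable_snd))
  have h3 : Ev d S J = {q | pat J (bary q.1.1 q.2.1)} ∩ ⋂ i : {i // i ∉ S},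
      {q | 0 < sg (i : Fin a ⊕ Fin b) * (gco q.1.1 q.1.2 ⬝ᵥ hom (q.2.2.1 i) - q.2.2.2 i)} := by
    ext q
    rw [Set.mem_inter_iff, Set.mem_iInter]
    rfl
  rw [h3]
  exact h1.inter (MeasurableSet.iInter h2)

/-- the product over the points which are not in the basis -/
theorem prod_phi (t : ℝ) : ∏ i : {i // i ∉ S}, Phi (sg (i : Fin a ⊕ Fin b) * t) =
    Phi (-t) ^ (a - (S.filter fun i => i.isLeft).card) *
      Phi t ^ (b - (S.filter fun i => ¬ i.isLeft).card) := by
  have h1 : ∏ i : {i // i ∉ S}, Phi (sg (i : Fin a ⊕ Fin b) * t) =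
      ∏ i ∈ Sᶜ, Phi (sg i * t) := by
    symm
    apply Finset.prod_subtype
    intro i
    exact Finset.mem_compl
  have h2 : ∀ i ∈ Sᶜ, Phi (sg i * t) = if i.isLeft = true then Phi (-t) else Phi t := by
    intro i _
    rcases i with i | i
    · simp [sg]
    · simp [sg]
  have cl : ((Finset.univ : Finset (Fin a ⊕ Fin b)).filter fun i => i.isLeft = true).card = a := by
    have : ((Finset.univ : Finset (Fin a ⊕ Fin b)).filter fun i => i.isLeft = true) =
        (Finset.univ : Finset (Fin a)).map ⟨Sum.inl, Sum.inl_injective⟩ := by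
      ext i
      rcases i with i | i <;> simp
    rw [this, Finset.card_map, Finset.card_univ, Fintype.card_fin]
  have cr : ((Finset.univ : Finset (Fin a ⊕ Fin b)).filter fun i => ¬ i.isLeft = true).card =
      b := by
    have : ((Finset.univ : Finset (Fin a ⊕ Fin b)).filter fun i => ¬ i.isLeft = true) =
        (Finset.univ : Finset (Fin b)).map ⟨Sum.inr, Sum.inr_injective⟩ := by
      ext i
      rcases i with i | i <;> simp
    rw [this, Finset.card_map, Finset.card_univ, Fintype.card_fin]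
  have gen : ∀ (P : Fin a ⊕ Fin b → Prop) [DecidablePred P], (Sᶜ.filter P).card =
      (Finset.univ.filter P).card - (S.filter P).card := by
    intro P _
    have h3 : (Finset.univ.filter P) = (Sᶜ.filter P) ∪ (S.filter P) := by
      rw [← Finset.filter_union, Finset.union_comm, Finset.union_compl]
    have h4 : Disjoint (Sᶜ.filter P) (S.filter P) :=
      Finset.disjoint_filter_filter disjoint_compl_left
    rw [h3, Finset.card_union_of_disjoint h4]
    omega
  rw [h1, Finset.prod_congr rfl h2, Finset.prod_ite, Finset.prod_const, Finset.prod_const,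
    gen, gen, cl, cr]

/-- the probability of the event in the new coordinates -/
theorem real_Ev (hOFF : S_OFF) (D k : ℕ) (hk : k = a - (S.filter fun i => i.isLeft).card)
    (hD : D - k = b - (S.filter fun i => ¬ i.isLeft).card) (J : ℕ) :
    (((gp (Fin (d + 1)) d).prod (gv (Fin (d + 1)))).prod ((gv (Fin d)).prod
      ((gp {i // i ∉ S} d).prod (gv {i // i ∉ S})))).real (Ev d S J) = TT d D J k := by
  set μ := (gp (Fin (d + 1)) d).prod (gv (Fin (d + 1))) with hμ
  set ν := (gv (Fin d)).prod ((gp {i // i ∉ S} d).prod (gv {i // i ∉ S})) with hν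
  have hm := meas_Ev (d := d) (S := S) J
  have hslice : ∀ q : (Fin (d + 1) → Fin d → ℝ) × (Fin (d + 1) → ℝ),
      ν.real (Prod.mk q ⁻¹' (Ev d S J)) =
        (gv (Fin d)).real {z | pat J (bary q.1 z)} * chi D k (sd (gco q.1 q.2)) := by
    intro q
    have h1 : Prod.mk q ⁻¹' (Ev d S J) = {z | pat J (bary q.1 z)} ×ˢ
        {w : ({i // i ∉ S} → Fin d → ℝ) × ({i // i ∉ S} → ℝ) | ∀ i : {i // i ∉ S},
          0 < sg (i : Fin a ⊕ Fin b) * (gco q.1 q.2 ⬝ᵥ hom (w.1 i) - w.2 i)} := by
      ext w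
      rfl
    rw [h1, hν, measureReal_prod_prod, hOFF d {i // i ∉ S} (fun i => sg (i : Fin a ⊕ Fin b)) (by
      rintro ⟨i, -⟩
      rcases i with i | i
      · right; rfl
      · left; rfl), prod_phi, ← hk, ← hD]
    rfl
  have h2 : (μ.prod ν).real (Ev d S J) = ∫ q, ν.real (Prod.mk q ⁻¹' (Ev d S J)) ∂μ := by
    rw [measureReal_def, Measure.prod_apply hm, ← integral_toReal
      (measurable_measure_prodMk_left hm).aemeasurable
      (Filter.Eventually.of_forall fun q => measure_lt_top ν _)]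
    rfl
  have hint : Integrable (fun q => ν.real (Prod.mk q ⁻¹' (Ev d S J))) μ :=
    Measure.integrable_measure_prodMk_left hm (measure_ne_top _ _)
  rw [h2, hμ, integral_prod _ hint]
  unfold TT
  refine integral_congr_ae (Filter.Eventually.of_forall fun x => ?_)
  refine integral_congr_ae (Filter.Eventually.of_forall fun h => ?_)
  exact hslice (x, h)

/-- the coordinates in `S` and the others -/
def Psi (q : ((Fin a ⊕ Fin b → Fin d → ℝ) × (Fin d → ℝ)) × (Fin a ⊕ Fin b → ℝ)) :
    ((Fin (d + 1) → Fin d → ℝ) × (Fin (d + 1) → ℝ)) ×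
      ((Fin d → ℝ) × (({i // i ∉ S} → Fin d → ℝ) × ({i // i ∉ S} → ℝ))) :=
  ((fun i => q.1.1 (e i), fun i => q.2 (e i)), (q.1.2, (fun i => q.1.1 i, fun i => q.2 i)))

theorem mp_Psi : MeasurePreserving (Psi e) (mxzh d a b)
    (((gp (Fin (d + 1)) d).prod (gv (Fin (d + 1)))).prod ((gv (Fin d)).prod
      ((gp {i // i ∉ S} d).prod (gv {i // i ∉ S})))) := by
  have h1 : MeasurePreserving _ (gp (Fin a ⊕ Fin b) d)
      ((gp (Fin (d + 1)) d).prod (gp {i // i ∉ S} d)) := mp_split (gv (Fin d)) S e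
  have h2 : MeasurePreserving _ (gv (Fin a ⊕ Fin b))
      ((gv (Fin (d + 1))).prod (gv {i // i ∉ S})) := mp_split G1 S e
  have h3 := (h1.prod (MeasurePreserving.id (gv (Fin d)))).prod h2
  exact (mp_rearr (gp (Fin (d + 1)) d) (gp {i // i ∉ S} d) (gv (Fin d)) (gv (Fin (d + 1)))
    (gv {i // i ∉ S})).comp h3

theorem main (hOFF : S_OFF) (hAS : S_AS) (D k : ℕ)
    (hk : k = a - (S.filter fun i => i.isLeft).card)
    (hD : D - k = b - (S.filter fun i => ¬ i.isLeft).card) (hS : S.card = d + 1) {s : ℝ} {J : ℕ}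
    (hJ : Fintype.card {i : {i // i ∈ S} // s * sg (i : Fin a ⊕ Fin b) = -1} = J)
    (hs : s = 1 ∨ s = -1) :
    NullMeasurableSet {q : ((Fin a ⊕ Fin b → Fin d → ℝ) × (Fin d → ℝ)) × (Fin a ⊕ Fin b → ℝ) |
          Pos s S q.1.1 q.1.2 ∧ Dual S q.1.1 q.2} (mxzh d a b) ∧
    (mxzh d a b).real {q | Pos s S q.1.1 q.1.2 ∧ Dual S q.1.1 q.2} = TT d D J k := by
  classical
  obtain ⟨e, he⟩ := exists_equiv (α := {i // i ∈ S})
    (fun i => s * sg (i : Fin a ⊕ Fin b) = -1) (n := d + 1) (J := J)
    (by rw [Fintype.card_coe]; exact hS) (by convert hJ)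
  have hmp := mp_Psi (d := d) e
  have hae : {q : ((Fin a ⊕ Fin b → Fin d → ℝ) × (Fin d → ℝ)) × (Fin a ⊕ Fin b → ℝ) |
          Pos s S q.1.1 q.1.2 ∧ Dual S q.1.1 q.2} =ᵐ[mxzh d a b] (Psi e) ⁻¹' (Ev d S J) := by
    filter_upwards [hAS d a b] with q hq
    have hdet := det_ne e (hq.1 S hS)
    apply propext
    show (Pos s S q.1.1 q.1.2 ∧ Dual S q.1.1 q.2) ↔ Psi e q ∈ Ev d S J
    rw [pos_iff e q.1.2 hdet, dual_iff e q.2 hdet]
    apply and_congr _ Iff.rfl
    have hsg : ∀ i : {i // i ∈ S}, s * sg (i : Fin a ⊕ Fin b) = -1 ∨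
        s * sg (i : Fin a ⊕ Fin b) = 1 := by
      rintro ⟨i, -⟩
      rcases hs with rfl | rfl <;> rcases i with i | i <;> simp [sg]
    constructor
    · intro h
      constructor
      · intro i hi
        have h1 := h i
        rw [(he i).2 hi] at h1
        show bary (fun i => q.1.1 (e i)) q.1.2 i < 0
        linarith
      · intro i hi
        have h1 := h i
        have h2 : s * sg (e i : Fin a ⊕ Fin b) = 1 :=
          (hsg (e i)).resolve_left fun h3 => absurd ((he i).1 h3) (not_lt.2 hi)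
        rw [h2, one_mul] at h1
        exact h1
    · rintro ⟨h1, h2⟩ i
      by_cases hi : (i : ℕ) < J
      · rw [(he i).2 hi]
        have := h1 i hi
        have h3 : bary (fun i => q.1.1 (e i)) q.1.2 i < 0 := this
        linarith
      · have h3 : s * sg (e i : Fin a ⊕ Fin b) = 1 :=
          (hsg (e i)).resolve_left fun h3 => absurd ((he i).1 h3) hi
        rw [h3, one_mul]
        exact h2 i (not_lt.1 hi)
  constructor
  · exact ((meas_Ev J).preimage hmp.measurable).nullMeasurableSet.congr hae.symm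
  · rw [measureReal_congr hae, hmp.measureReal_preimage (meas_Ev J).nullMeasurableSet]
    exact real_Ev hOFF D k hk hD J

end

theorem t_TS (hOFF : S_OFF) (hAS : S_AS) : S_TS := by
  classical
  intro d a b D hab S hS
  have hcard : (S.filter fun i => i.isLeft = true).card +
      (S.filter fun i => ¬ i.isLeft = true).card = d + 1 := by
    rw [Finset.card_filter_add_card_filter_not, hS]
  have hja : (S.filter fun i => i.isLeft = true).card ≤ a := by
    have h1 : (S.filter fun i => i.isLeft = true) ⊆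
        (Finset.univ : Finset (Fin a)).map ⟨Sum.inl, Sum.inl_injective⟩ := by
      intro i hi
      rcases i with i | i
      · simp
      · simp at hi
    have h2 := Finset.card_le_card h1
    rwa [Finset.card_map, Finset.card_univ, Fintype.card_fin] at h2
  have hD : D - (a - (S.filter fun i => i.isLeft = true).card) =
      b - (S.filter fun i => ¬ i.isLeft = true).card := by omega
  have c1 : Fintype.card {i : {i // i ∈ S} // (1 : ℝ) * sg (i : Fin a ⊕ Fin b) = -1} =
      (S.filter fun i => i.isLeft = true).card := by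
    rw [Fintype.card_subtype]
    have : (Finset.univ.filter fun i : {i // i ∈ S} => (1 : ℝ) * sg (i : Fin a ⊕ Fin b) = -1).map
        (Function.Embedding.subtype _) = S.filter fun i => i.isLeft = true := by
      ext i
      rcases i with i | i
      · simp [sg]
      · simp [sg]
        norm_num
    rw [← this, Finset.card_map]
  have c2 : Fintype.card {i : {i // i ∈ S} // (-1 : ℝ) * sg (i : Fin a ⊕ Fin b) = -1} =
      d + 1 - (S.filter fun i => i.isLeft = true).card := by
    rw [Fintype.card_subtype]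
    have : (Finset.univ.filter fun i : {i // i ∈ S} => (-1 : ℝ) * sg (i : Fin a ⊕ Fin b) = -1).map
        (Function.Embedding.subtype _) = S.filter fun i => ¬ i.isLeft = true := by
      ext i
      rcases i with i | i
      · simp [sg]
        norm_num
      · simp [sg]
    have h2 := congrArg Finset.card this
    rw [Finset.card_map] at h2
    rw [h2]
    omega
  have m1 := main (d := d) (S := S) hOFF hAS D _ rfl hD hS c1 (Or.inl rfl)
  have m2 := main (d := d) (S := S) hOFF hAS D _ rfl hD hS c2 (Or.inr rfl)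
  exact ⟨m1.1, m2.1, m1.2, m2.2⟩

end Pool.Agent.K1H61.RP
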