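import Pool.Agent.K1H9.RP.Stm

/-! Probabilities of the basic events: measure-preserving splitting, measurability. -/

set_option autoImplicit false

open MeasureTheory ProbabilityTheory Matrix

namespace Pool.Agent.K1H61.RP

open Pool.Agent.K1H9.RP

instance : IsProbabilityMeasure G1 := by unfold G1; infer_instance

instance (κ : Type) [Fintype κ] : IsProbabilityMeasure (gv κ) := by unfold gv; infer_instance

instance (κ : Type) [Fintype κ] (d : ℕ) : IsProbabilityMeasure (gp κ d) := by
  unfold gp; infer_instance

/-- splitting a product over `κ` into the coordinates in `S` (listed by `e`) and the others -/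
theorem mp_split {κ : Type} [Fintype κ] [DecidableEq κ] {α : Type} [MeasurableSpace α]
    (ν : Measure α) [SigmaFinite ν] (S : Finset κ) {n : ℕ} (e : Fin n ≃ {i // i ∈ S}) :
    MeasurePreserving
      (fun x : κ → α => ((fun i => x (e i) : Fin n → α), (fun i : {i // i ∉ S} => x i)))
      (Measure.pi fun _ : κ => ν)
      ((Measure.pi fun _ : Fin n => ν).prod (Measure.pi fun _ : {i // i ∉ S} => ν)) := by
  have h1 := measurePreserving_piEquivPiSubtypeProd (fun _ : κ => ν) (fun i => i ∈ S)
  let i0 : Fintype {i // i ∈ S} := Subtype.fintype (fun i => i ∈ S)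
  have h2 := (measurePreserving_piCongrLeft (α := fun _ : {i // i ∈ S} => α)
    (fun _ => ν) e).symm
  have h3 := (h2.prod (MeasurePreserving.id (Measure.pi fun _ : {i // i ∉ S} => ν))).comp h1
  exact h3

theorem mp_rearr {A B Z C E : Type} [MeasurableSpace A] [MeasurableSpace B] [MeasurableSpace Z]
    [MeasurableSpace C] [MeasurableSpace E] (a : Measure A) (b : Measure B) (z : Measure Z)
    (c : Measure C) (e : Measure E) [SFinite a] [SFinite b] [SFinite z] [SFinite c] [SFinite e] :
    MeasurePreserving
      (fun q : ((A × B) × Z) × (C × E) => ((q.1.1.1, q.2.1), (q.1.2, (q.1.1.2, q.2.2))))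
      (((a.prod b).prod z).prod (c.prod e)) ((a.prod c).prod (z.prod (b.prod e))) := by
  -- `((A, B), Z) → (A, (Z, B))`
  have s1 : MeasurePreserving (fun q : (A × B) × Z => (q.1.1, (q.2, q.1.2)))
      ((a.prod b).prod z) (a.prod (z.prod b)) :=
    ((MeasurePreserving.id a).prod (Measure.measurePreserving_swap (μ := b) (ν := z))).comp
      (measurePreserving_prodAssoc a b z)
  -- `(W, (C, E)) → (C, (W, E))`, `W = (Z, B)`
  have s2 : MeasurePreserving (fun q : (Z × B) × (C × E) => (q.2.1, (q.1, q.2.2)))
      ((z.prod b).prod (c.prod e)) (c.prod ((z.prod b).prod e)) := by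
    have t1 := (measurePreserving_prodAssoc (z.prod b) c e).symm
    have t2 := (Measure.measurePreserving_swap (μ := z.prod b) (ν := c)).prod
      (MeasurePreserving.id e)
    have t3 := measurePreserving_prodAssoc c (z.prod b) e
    exact t3.comp (t2.comp t1)
  have s3 : MeasurePreserving (fun q : (Z × B) × E => (q.1.1, (q.1.2, q.2)))
      ((z.prod b).prod e) (z.prod (b.prod e)) := measurePreserving_prodAssoc z b e
  have s4 := s1.prod (MeasurePreserving.id (c.prod e))
  have s5 := measurePreserving_prodAssoc a (z.prod b) (c.prod e)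
  have s6 := (MeasurePreserving.id a).prod (((MeasurePreserving.id c).prod s3).comp s2)
  have s7 := (measurePreserving_prodAssoc a c (z.prod (b.prod e))).symm
  exact s7.comp (s6.comp (s5.comp s4))

/-! ### Measurability -/

theorem cont_BM {d : ℕ} : Continuous fun x : Fin (d + 1) → Fin d → ℝ => BM x := by
  apply continuous_matrix
  intro i j
  refine Fin.cases ?_ (fun c => ?_) j
  · simp only [BM, hom, Matrix.of_apply, Fin.cons_zero]
    exact continuous_const
  · simp only [BM, hom, Matrix.of_apply, Fin.cons_succ]
    fun_prop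

theorem cont_hom {d : ℕ} : Continuous fun z : Fin d → ℝ => hom z := by
  apply continuous_pi
  intro j
  refine Fin.cases ?_ (fun c => ?_) j
  · simp only [hom, Fin.cons_zero]
    exact continuous_const
  · simp only [hom, Fin.cons_succ]
    fun_prop

theorem meas_inv {d : ℕ} (i j : Fin (d + 1)) :
    Measurable fun x : Fin (d + 1) → Fin d → ℝ => (BM x)⁻¹ i j := by
  have h1 : (fun x : Fin (d + 1) → Fin d → ℝ => (BM x)⁻¹ i j) =
      fun x => ((BM x).det)⁻¹ * (BM x).adjugate i j := by
    funext x
    rw [Matrix.inv_def, Matrix.smul_apply, Ring.inverse_eq_inv', smul_eq_mul]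
  rw [h1]
  apply Measurable.mul
  · exact (Continuous.matrix_det cont_BM).measurable.inv
  · exact ((Continuous.matrix_adjugate cont_BM).matrix_elem i j).measurable

theorem meas_bary {d : ℕ} (i : Fin (d + 1)) :
    Measurable fun q : (Fin (d + 1) → Fin d → ℝ) × (Fin d → ℝ) => bary q.1 q.2 i := by
  unfold bary Matrix.vecMul dotProduct
  apply Finset.measurable_sum
  intro j _
  apply Measurable.mul
  · exact (measurable_pi_apply j).comp (cont_hom.measurable.comp measurable_snd)
  · exact (meas_inv j i).comp measurable_fst

theorem meas_gco {d : ℕ} (i : Fin (d + 1)) :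
    Measurable fun q : (Fin (d + 1) → Fin d → ℝ) × (Fin (d + 1) → ℝ) => gco q.1 q.2 i := by
  unfold gco Matrix.mulVec dotProduct
  apply Finset.measurable_sum
  intro j _
  apply Measurable.mul
  · exact (meas_inv i j).comp measurable_fst
  · exact (measurable_pi_apply j).comp measurable_snd

theorem meas_pat {n : ℕ} (j : ℕ) : MeasurableSet {m : Fin n → ℝ | pat j m} := by
  have h : {m : Fin n → ℝ | pat j m} = (⋂ i : Fin n, {m | (i : ℕ) < j → m i < 0}) ∩
      ⋂ i : Fin n, {m | j ≤ (i : ℕ) → 0 < m i} := by
    ext m
    simp only [pat, Set.mem_inter_iff, Set.mem_iInter]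
    rfl
  rw [h]
  apply MeasurableSet.inter
  · apply MeasurableSet.iInter
    intro i
    by_cases hi : (i : ℕ) < j
    · have : {m : Fin n → ℝ | (i : ℕ) < j → m i < 0} = {m | m i < 0} := by
        ext m
        exact ⟨fun h => h hi, fun h _ => h⟩
      rw [this]
      exact measurableSet_lt (measurable_pi_apply i) measurable_const
    · have : {m : Fin n → ℝ | (i : ℕ) < j → m i < 0} = Set.univ := by
        ext m
        exact ⟨fun _ => trivial, fun _ h => absurd h hi⟩
      rw [this]
      exact MeasurableSet.univ
  · apply MeasurableSet.iInter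
    intro i
    by_cases hi : j ≤ (i : ℕ)
    · have : {m : Fin n → ℝ | j ≤ (i : ℕ) → 0 < m i} = {m | 0 < m i} := by
        ext m
        exact ⟨fun h => h hi, fun h _ => h⟩
      rw [this]
      exact measurableSet_lt measurable_const (measurable_pi_apply i)
    · have : {m : Fin n → ℝ | j ≤ (i : ℕ) → 0 < m i} = Set.univ := by
        ext m
        exact ⟨fun _ => trivial, fun _ h => absurd h hi⟩
      rw [this]
      exact MeasurableSet.univ

end Pool.Agent.K1H61.RP
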